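import Mathlib

set_option autoImplicit false

/-!
# The pluricomplex Green function
-/

namespace Pool.Agent.H97.GreenOwn

open MeasureTheory

/-- The complex Euclidean space of dimension `n`. -/
abbrev CC (n : ℕ) := EuclideanSpace ℂ (Fin n)

/-- The point `a + r e^(iθ) b` of a circle in a complex line. -/
noncomputable def circ {n : ℕ} (a b : CC n) (r θ : ℝ) : CC n :=
  a + ((r : ℂ) * Complex.exp ((θ : ℂ) * Complex.I)) • b

/-- The closed disc `{a + ζ b : |ζ| ≤ r}`. -/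
def disc {n : ℕ} (a b : CC n) (r : ℝ) : Set (CC n) := {y | ∃ ζ : ℂ, ‖ζ‖ ≤ r ∧ y = a + ζ • b}

/-- `u : Ω → [-∞, ∞)` is plurisubharmonic on `Ω`: it is upper semicontinuous and
`u(a) ≤ (2π)⁻¹ ∫_0^(2π) u(a + r e^(iθ) b) dθ` for every closed disc `{a + ζ b : |ζ| ≤ r}` in `Ω`.
The mean inequality is written for `M - u`, where the real number `M` is any upper bound of `u` on
the disc; then `M - u` has values in `[0, ∞]`. -/
def PSH {n : ℕ} (Ω : Set (CC n)) (u : CC n → EReal) : Prop :=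
  UpperSemicontinuousOn u Ω ∧ (∀ y ∈ Ω, u y ≠ ⊤) ∧
    ∀ (a b : CC n) (r : ℝ), 0 < r → disc a b r ⊆ Ω →
      ∀ M : ℝ, (∀ y ∈ disc a b r, u y ≤ (M : EReal)) →
        ∫⁻ θ in Set.Icc (0 : ℝ) (2 * Real.pi), ((M : EReal) - u (circ a b r θ)).toENNReal
          ≤ ENNReal.ofReal (2 * Real.pi) * ((M : EReal) - u a).toENNReal

/-- The pluricomplex Green function of `Ω` with pole `w`: the supremum of `u(z)` over all
plurisubharmonic functions `u ≤ 0` on `Ω` with `u(s) ≤ log ‖s - w‖ + C` for all `s` in `Ω`, where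
the constant `C` may depend on `u` (and `log 0 = -∞`). -/
noncomputable def green {n : ℕ} (Ω : Set (CC n)) (w z : CC n) : EReal :=
  sSup {t : EReal | ∃ u : CC n → EReal, t = u z ∧ PSH Ω u ∧ (∀ y ∈ Ω, u y ≤ 0) ∧
    ∃ C : ℝ, ∀ y ∈ Ω, u y ≤ ENNReal.log ‖y - w‖ₑ + (C : EReal)}

/-- The Green function as a real function. -/
noncomputable def greenR {n : ℕ} (Ω : Set (CC n)) (w z : CC n) : ℝ := (green Ω w z).toReal

/-- The second derivative of `ρ` at `z` in the direction `ξ`. -/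
noncomputable def second {n : ℕ} (ρ : CC n → ℝ) (z ξ : CC n) : ℝ :=
  fderiv ℝ (fun y => fderiv ℝ ρ y ξ) z ξ

/-- The Levi form of `ρ` (four times it). -/
noncomputable def levi {n : ℕ} (ρ : CC n → ℝ) (z ξ : CC n) : ℝ :=
  second ρ z ξ + second ρ z (Complex.I • ξ)

/-- `Ω` is a bounded, strictly pseudoconvex domain with smooth boundary: it is the set where a
smooth real function `ρ` on the whole space is negative, and at every zero `z` of `ρ` the
differential of `ρ` does not vanish and the Levi form of `ρ` is positive (here on all non-zero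
vectors, not only on the complex tangent vectors). -/
def StrictlyPseudoconvex {n : ℕ} (Ω : Set (CC n)) : Prop :=
  IsOpen Ω ∧ IsConnected Ω ∧ Bornology.IsBounded Ω ∧
    ∃ ρ : CC n → ℝ, ContDiff ℝ ((⊤ : ℕ∞) : WithTop ℕ∞) ρ ∧ Ω = {z | ρ z < 0} ∧
      ∀ z, ρ z = 0 → (∃ ξ, fderiv ℝ ρ z ξ ≠ 0) ∧ ∀ ξ : CC n, ξ ≠ 0 → 0 < levi ρ z ξ

/-- `G` has a Taylor expansion of order two at `p`: there are a real linear map `L` and a real
bilinear map `B` with `G(p + h) = G(p) + L(h) + B(h, h) + o(‖h‖²)`. -/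
def Expands {n : ℕ} (G : CC n → ℝ) (p : CC n) : Prop :=
  ∃ (L : CC n →L[ℝ] ℝ) (B : CC n →L[ℝ] CC n →L[ℝ] ℝ), ∀ ε > 0, ∃ δ > 0, ∀ h : CC n, ‖h‖ < δ →
    |G (p + h) - (G p + L h + B h h)| ≤ ε * ‖h‖ ^ 2

/-- `G` is of class `C²` on `U`. -/
def IsC2On {n : ℕ} (G : CC n → ℝ) (U : Set (CC n)) : Prop := ContDiffOn ℝ 2 G U

end Pool.Agent.H97.GreenOwn
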