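import Pool.Agent.H97.GreenOwn.Main

set_option autoImplicit false

open Filter Topology MeasureTheory Asymptotics

namespace Pool.Agent.H97.GreenOwn

open Pool.Agent.H97.Green

/-- The contradiction from a quadratic expansion at `0` on the line. -/
lemma no_expansion {H : ℝ → ℝ} {p0 p1 p2 : ℝ}
    (hp : (fun x => H x - (p0 + p1 * x + p2 * x ^ 2)) =o[𝓝 0] fun x : ℝ => x ^ 2) {A : ℝ}
    (h1 : ∀ᶠ m : ℕ in atTop, (Real.log 2 / m) ^ 2 / 8 ≤ H (-(Real.log 2 / m)))
    (h0 : ∀ᶠ m : ℕ in atTop, 0 ≤ H (Real.log 2 / m))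
    (h2 : ∀ᶠ m : ℕ in atTop, H (Real.log 2 / m) ≤ A / (m : ℝ) ^ 2 * (Real.log 2 / m)) : False := by
  have hl2 : 0 < Real.log 2 := Real.log_pos (by norm_num)
  set s : ℕ → ℝ := fun m => Real.log 2 / m with hs
  have hcast : Tendsto (fun m : ℕ => (m : ℝ)) atTop atTop := tendsto_natCast_atTop_atTop
  have hs0 : Tendsto s atTop (𝓝 0) := tendsto_const_nhds.div_atTop hcast
  have hspos : ∀ᶠ m : ℕ in atTop, 0 < s m := by
    filter_upwards [eventually_gt_atTop 0] with m hm
    have : (0 : ℝ) < m := by exact_mod_cast hm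
    simp only [hs]; positivity
  have hR := hp.tendsto_div_nhds_zero
  have hR1 : Tendsto (fun m => (H (s m) - (p0 + p1 * s m + p2 * s m ^ 2)) / s m ^ 2) atTop (𝓝 0) :=
    hR.comp hs0
  have hs0' : Tendsto (fun m => -s m) atTop (𝓝 0) := by simpa using hs0.neg
  have hR2 : Tendsto (fun m => (H (-s m) - (p0 + p1 * (-s m) + p2 * (-s m) ^ 2)) / (-s m) ^ 2)
      atTop (𝓝 0) := hR.comp hs0'
  have hA : Tendsto (fun m => H (s m) / s m ^ 2) atTop (𝓝 0) := by
    have hup : Tendsto (fun m : ℕ => (A / Real.log 2) / (m : ℝ)) atTop (𝓝 0) :=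
      tendsto_const_nhds.div_atTop hcast
    refine tendsto_of_tendsto_of_tendsto_of_le_of_le' tendsto_const_nhds hup ?_ ?_
    · filter_upwards [h0] with m hm
      exact div_nonneg hm (sq_nonneg _)
    · filter_upwards [h2, hspos, eventually_gt_atTop 0] with m hm hsm hm0
      have hmp : (0 : ℝ) < m := by exact_mod_cast hm0
      rw [div_le_iff₀ (by positivity)]
      refine hm.trans (le_of_eq ?_)
      simp only [hs]
      field_simp
  have hB : Tendsto (fun m => (p0 + p1 * s m + p2 * s m ^ 2) / s m ^ 2) atTop (𝓝 0) := by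
    have := hA.sub hR1
    rw [sub_zero] at this
    refine this.congr (fun m => ?_)
    ring
  have hp0 : p0 = 0 := by
    have e1 : Tendsto (fun m => (p0 + p1 * s m + p2 * s m ^ 2)) atTop (𝓝 0) := by
      have := hB.mul (hs0.pow 2)
      rw [zero_mul] at this
      refine this.congr' ?_
      filter_upwards [hspos] with m hm
      field_simp
    have e2 : Tendsto (fun m => (p0 + p1 * s m + p2 * s m ^ 2)) atTop
        (𝓝 (p0 + p1 * 0 + p2 * 0 ^ 2)) :=
      (tendsto_const_nhds.add (hs0.const_mul p1)).add ((hs0.pow 2).const_mul p2)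
    have := tendsto_nhds_unique e1 e2
    simpa using this.symm
  subst hp0
  have hp1 : p1 = 0 := by
    have e1 : Tendsto (fun m => (p1 + p2 * s m)) atTop (𝓝 0) := by
      have := hB.mul hs0
      rw [zero_mul] at this
      refine this.congr' ?_
      filter_upwards [hspos] with m hm
      field_simp
      ring
    have e2 : Tendsto (fun m => (p1 + p2 * s m)) atTop (𝓝 (p1 + p2 * 0)) :=
      (tendsto_const_nhds.add (hs0.const_mul p2))
    have := tendsto_nhds_unique e1 e2
    simpa using this.symm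
  subst hp1
  have hp2 : p2 = 0 := by
    have e1 : Tendsto (fun _ : ℕ => p2) atTop (𝓝 0) := by
      refine hB.congr' ?_
      filter_upwards [hspos] with m hm
      field_simp
      ring
    exact tendsto_nhds_unique tendsto_const_nhds e1
  subst hp2
  have hC : ∀ᶠ m : ℕ in atTop, (H (-s m) - (0 + 0 * (-s m) + 0 * (-s m) ^ 2)) / (-s m) ^ 2 < 1 / 8 :=
    hR2.eventually (gt_mem_nhds (by norm_num))
  obtain ⟨m, hm1, hm2, hm3⟩ := ((hC.and (h1.and hspos))).exists
  have : (-s m) ^ 2 = s m ^ 2 := by ring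
  rw [this, div_lt_iff₀ (by positivity)] at hm1
  have h4 : s m ^ 2 / 8 ≤ H (-s m) := hm2
  linarith

lemma pt_eq (z : ℂ) (s : ℝ) :
    pt z s = pt z 0 + (Real.exp s - 1) • (!₂[0, z] : EE) := by
  ext i
  fin_cases i
  · simp [pt]
  · simp [pt]; ring

/-- An expansion of `G` gives one along the curve `s ↦ pt z s`. -/
lemma expansion_line {G : EE → ℝ} {z : ℂ} (h : Expands (n := 2) G (pt z 0)) (a b : ℝ) :
    ∃ p0 p1 p2 : ℝ, (fun x => (G (pt z x) - a - b * x) - (p0 + p1 * x + p2 * x ^ 2))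
      =o[𝓝 0] fun x : ℝ => x ^ 2 := by
  obtain ⟨L, B, hLB0⟩ := h
  have hLB : (fun h => G (pt z 0 + h) - (G (pt z 0) + L h + B h h)) =o[𝓝 0]
      fun h : EE => ‖h‖ ^ 2 := by
    rw [isLittleO_iff]
    intro e he
    obtain ⟨d, hd, hh⟩ := hLB0 e he
    filter_upwards [Metric.ball_mem_nhds (0 : EE) hd] with h hh'
    rw [mem_ball_zero_iff] at hh'
    have := hh h hh'
    rwa [Real.norm_eq_abs, Real.norm_of_nonneg (by positivity)]
  set v : EE := !₂[0, z] with hv
  set P : ℝ → ℝ := fun x => G (pt z 0) + (Real.exp x - 1) * L v +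
    (Real.exp x - 1) ^ 2 * B v v - a - b * x with hP
  have hPs : ContDiff ℝ 2 P := by
    rw [hP]
    fun_prop
  obtain ⟨p0, p1, p2, hp⟩ := taylor2 hPs.contDiffAt
  refine ⟨p0, p1, p2, ?_⟩
  -- the remainder
  have hcont : Tendsto (fun x : ℝ => (Real.exp x - 1) • v) (𝓝 0) (𝓝 0) := by
    have : Continuous fun x : ℝ => (Real.exp x - 1) • v := by fun_prop
    have h2 := this.tendsto 0
    simpa using h2
  have hr := hLB.comp_tendsto hcont
  have hO : (fun x : ℝ => ‖(Real.exp x - 1) • v‖ ^ 2) =O[𝓝 0] fun x : ℝ => x ^ 2 := by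
    have h1 : (fun x : ℝ => Real.exp x - 1) =O[𝓝 0] fun x : ℝ => x := by
      have hd : HasDerivAt Real.exp (Real.exp 0) 0 := Real.hasDerivAt_exp 0
      have := hd.isBigO_sub
      simpa using this
    have h2 : (fun x : ℝ => ‖(Real.exp x - 1) • v‖) =O[𝓝 0] fun x : ℝ => x := by
      have h3 : (fun x : ℝ => ‖(Real.exp x - 1) • v‖) = fun x : ℝ => ‖v‖ * ‖Real.exp x - 1‖ := by
        funext x
        rw [norm_smul, mul_comm]
      rw [h3]
      exact (h1.norm_left).const_mul_left _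
    exact h2.pow 2
  have hr2 := hr.trans_isBigO hO
  have hsum := hr2.add hp
  refine hsum.congr_left fun x => ?_
  simp only [Function.comp_apply, hP]
  rw [← pt_eq]
  simp only [map_smul, smul_eq_mul, ContinuousLinearMap.smul_apply]
  ring

theorem not_expands {c ε : ℝ} (hc : 0 ≤ c) (hε : 0 < ε) {a : ℂ} (haa : ‖a - 1 / 2‖ ≤ 1 / 4)
    (hb : ∀ z : ℂ, 0 < Complex.normSq z → Complex.normSq z < 2 → bf c ε z ≤ E0 z)
    (hab : bf c ε a = E0 a) : ∃ p : EE, p ∈ Om c ε \ {0} ∧
      ¬ Expands (n := 2) (greenR (Om c ε) 0) p ∧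
      ¬ ContDiffAt ℝ 2 (greenR (n := 2) (Om c ε) 0) p := by
  obtain ⟨z, hz, hz1, A, h1, h0, h2⟩ := facts hc hε haa hb hab
  have hmem := (pt_mem hc hε hz hz1).self_of_nhds
  refine ⟨pt z 0, hmem, fun h => ?_, fun h => ?_⟩
  · obtain ⟨p0, p1, p2, hp⟩ := expansion_line h (Real.log ‖z‖) (1 / 2)
    refine no_expansion (A := A) hp ?_ ?_ ?_
    · filter_upwards [h1] with m hm
      refine hm.trans (le_of_eq ?_)
      unfold greenR
      ring
    · filter_upwards [h0] with m hm
      refine hm.trans (le_of_eq ?_)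
      unfold greenR
      ring
    · filter_upwards [h2] with m hm
      refine le_trans (le_of_eq ?_) hm
      unfold greenR
      ring
  · have hC2 : ContDiffAt ℝ 2 (fun t : ℝ => greenR (Om c ε) 0 (pt z t) -
        Real.log ‖z‖ - t / 2) 0 := by
      have h3 : ContDiffAt ℝ 2 (fun t : ℝ => greenR (Om c ε) 0 (pt z t)) 0 :=
        ContDiffAt.comp (g := greenR (n := 2) (Om c ε) 0) (0 : ℝ) h (contDiff_pt z).contDiffAt
      exact (h3.sub contDiffAt_const).sub (contDiffAt_id.div_const 2)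
    exact no_C2 (A := A) hC2 h1 h0 h2

end Pool.Agent.H97.GreenOwn
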