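import Pool.Agent.H97.GreenOwn.Main

set_option autoImplicit false

open Filter Topology MeasureTheory

namespace Pool.Agent.H97.GreenOwn

open Pool.Agent.H97.Green

/-- The logarithm of the norm, scaled. -/
noncomputable def ln (R : ℝ) (y : EE) : EReal := ENNReal.log (ENNReal.ofReal (‖y‖ / R))

lemma ln_of_ne {R : ℝ} (hR : 0 < R) {y : EE} (hy : y ≠ 0) :
    ln R y = ((Real.log ‖y‖ - Real.log R : ℝ) : EReal) := by
  have hn : 0 < ‖y‖ := norm_pos_iff.2 hy
  unfold ln
  rw [ENNReal.log_ofReal_of_pos (div_pos hn hR), Real.log_div hn.ne' hR.ne']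

lemma ln_zero (R : ℝ) : ln R 0 = ⊥ := by
  unfold ln
  simp

lemma continuous_ln (R : ℝ) : Continuous (ln R) := by
  unfold ln
  have h1 : Continuous fun y : EE => ‖y‖ / R := by fun_prop
  exact ENNReal.continuous_log.comp (ENNReal.continuous_ofReal.comp h1)

theorem comp_ln {Ω : Set EE} {R : ℝ} (hR : 0 < R) (hΩ : ∀ y ∈ Ω, ‖y‖ < R) :
    Comp Ω (ln R) := by
  have hneg : ∀ y ∈ Ω, ln R y < 0 := by
    intro y hy
    by_cases h : y = 0
    · rw [h, ln_zero]; exact EReal.bot_lt_zero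
    · rw [ln_of_ne hR h]
      have := Real.log_lt_log (norm_pos_iff.2 h) (hΩ y hy)
      exact_mod_cast sub_neg.2 this
  refine ⟨(continuous_ln R).upperSemicontinuous.upperSemicontinuousOn _, hneg,
    ⟨-Real.log R, 1, one_pos, fun y hy hy0 _ => ?_⟩, fun a ha b r hr hdisc => ?_⟩
  · rw [ln_of_ne hR hy0, sub_zero, ← sub_eq_add_neg]
  · by_cases ha0 : a = 0
    · rw [ha0, ln_zero]
      simp only [EReal.neg_bot, EReal.toENNReal_top]
      rw [ENNReal.mul_top]
      · exact le_top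
      · simp [Real.pi_pos]
    · have hna : 0 < ‖a‖ := norm_pos_iff.2 ha0
      set v : EE := ((‖a‖⁻¹ : ℝ) : ℂ) • a with hv
      have hvn : ‖v‖ = 1 := by
        rw [hv, norm_smul, Complex.norm_real, Real.norm_of_nonneg (by positivity)]
        field_simp
      have hva : inner ℂ v a = ((‖a‖ : ℝ) : ℂ) := by
        rw [hv, inner_smul_left, inner_self_eq_norm_sq_to_K, Complex.conj_ofReal]
        have : (((‖a‖⁻¹ : ℝ) : ℂ)) * ((‖a‖ : ℝ) : ℂ) ^ 2 = ((‖a‖ : ℝ) : ℂ) := by
          rw [← Complex.ofReal_pow, ← Complex.ofReal_mul]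
          congr 1
          field_simp
        exact this
      have hva0 : inner ℂ v a ≠ 0 := by
        rw [hva]; exact Complex.ofReal_ne_zero.2 hna.ne'
      have hin : ∀ ζ : ℂ, inner ℂ v (a + ζ • b) = inner ℂ v a + ζ * inner ℂ v b := by
        intro ζ
        rw [inner_add_right, inner_smul_right]
      have hle : ∀ y : EE, ‖inner ℂ v y‖ ≤ ‖y‖ := by
        intro y
        have := norm_inner_le_norm (𝕜 := ℂ) v y
        rwa [hvn, one_mul] at this
      set F : ℂ → ℝ := fun ζ => Real.log ‖inner ℂ v a + ζ * inner ℂ v b‖ + (-Real.log R) with hF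
      obtain ⟨hi, hm⟩ := log_affine hr (inner ℂ v a) (inner ℂ v b)
      have hFi : CircleIntegrable F 0 r := hi.add (circleIntegrable_const _ _ _)
      have hFm : F 0 ≤ Real.circleAverage F 0 r := by
        rw [hF, Real.circleAverage_fun_add hi (circleIntegrable_const _ _ _),
          Real.circleAverage_const]
        simp only [zero_mul, add_zero]
        have := hm hva0
        linarith
      have hcirc : ∀ θ : ℝ, a + circleMap 0 r θ • b ∈ Ω := fun θ =>
        hdisc _ (by rw [norm_circleMap_zero, abs_of_pos hr])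
      have hae : ∀ᵐ θ : ℝ, inner ℂ v a + circleMap 0 r θ * inner ℂ v b ≠ 0 :=
        ae_circle_ne hr hva0
      have hFle : ∀ᵐ θ : ℝ, a + circleMap 0 r θ • b ≠ 0 ∧ F (circleMap 0 r θ) ≤
          Real.log ‖a + circleMap 0 r θ • b‖ - Real.log R := by
        filter_upwards [hae] with θ hθ
        have h1 := hle (a + circleMap 0 r θ • b)
        rw [hin] at h1
        have h2 : 0 < ‖inner ℂ v a + circleMap 0 r θ * inner ℂ v b‖ := norm_pos_iff.2 hθ
        refine ⟨norm_pos_iff.1 (h2.trans_le h1), ?_⟩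
        have := Real.log_le_log h2 h1
        simp only [hF]
        linarith
      have hFn : ∀ᵐ θ : ℝ, F (circleMap 0 r θ) ≤ 0 := by
        filter_upwards [hFle] with θ hθ
        have h3 := Real.log_lt_log (norm_pos_iff.2 hθ.1) (hΩ _ (hcirc θ))
        linarith [hθ.2]
      calc ∫⁻ θ in Set.Icc (0 : ℝ) (2 * Real.pi),
          EReal.toENNReal (-(ln R (a + ((r : ℂ) * Complex.exp ((θ : ℂ) * Complex.I)) • b)))
          ≤ ∫⁻ θ in Set.Icc (0 : ℝ) (2 * Real.pi), ENNReal.ofReal (-F (circleMap 0 r θ)) := by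
            refine lintegral_mono_ae (ae_restrict_of_ae ?_)
            filter_upwards [hFle] with θ hθ
            simp only [circle_expr]
            rw [ln_of_ne hR hθ.1, ← EReal.coe_neg, EReal.real_coe_toENNReal]
            apply ENNReal.ofReal_le_ofReal
            linarith [hθ.2]
        _ ≤ ENNReal.ofReal (2 * Real.pi) * EReal.toENNReal (-(ln R a)) := by
            rw [lint_eq hFi hFn, ln_of_ne hR ha0, ← EReal.coe_neg, EReal.real_coe_toENNReal,
              ← ENNReal.ofReal_mul (by positivity)]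
            apply ENNReal.ofReal_le_ofReal
            apply mul_le_mul_of_nonneg_left _ (by positivity)
            have : F 0 = Real.log ‖a‖ - Real.log R := by
              simp only [hF, zero_mul, add_zero, hva, Complex.norm_real,
                Real.norm_of_nonneg hna.le]
              ring
            linarith

theorem lit_ln {Ω : Set EE} {R : ℝ} (hR : 0 < R) (hΩ : ∀ y ∈ Ω, ‖y‖ < R) :
    Lit Ω (ln R) := by
  have hc := comp_ln hR hΩ
  refine ⟨psh_of_comp hc, fun y hy => (hc.2.1 y hy).le, -Real.log R, fun y _ => ?_⟩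
  rw [sub_zero]
  by_cases h : y = 0
  · rw [h, ln_zero]; exact bot_le
  · rw [ln_of_ne hR h, log_enorm h, ← EReal.coe_add, ← sub_eq_add_neg]

/-- The Green function is real valued off the pole. -/
theorem green_finite {Ω : Set EE} (hb : Bornology.IsBounded Ω) {y : EE} (hy : y ∈ Ω)
    (hy0 : y ≠ 0) : green Ω 0 y ≠ ⊥ ∧ green Ω 0 y ≠ ⊤ := by
  obtain ⟨R, hR⟩ := hb.exists_norm_le
  have hR1 : 0 < |R| + 1 := by positivity
  have hlt : ∀ y ∈ Ω, ‖y‖ < |R| + 1 := fun y hy => by
    have := hR y hy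
    have h2 := le_abs_self R
    linarith
  constructor
  · intro h
    have h1 : ln (|R| + 1) y ≤ green Ω 0 y := by
      rw [green_eq]
      exact le_sSup ⟨_, rfl, lit_ln hR1 hlt⟩
    rw [h, ln_of_ne hR1 hy0] at h1
    exact absurd (le_bot_iff.1 h1) (EReal.coe_ne_bot _)
  · intro h
    have h1 : green Ω 0 y ≤ 0 := by
      refine sSup_le ?_
      rintro t ⟨u, rfl, -, hu, -⟩
      exact hu y hy
    rw [h] at h1
    exact absurd h1 (by simp)

lemma second_eq {n : ℕ} {ρ : CC n → ℝ} (hρ : ContDiff ℝ ((⊤ : ℕ∞) : WithTop ℕ∞) ρ) (z ξ : CC n) :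
    second ρ z ξ = fderiv ℝ (fderiv ℝ ρ) z ξ ξ := by
  unfold second
  have h1 : DifferentiableAt ℝ (fderiv ℝ ρ) z :=
    (hρ.fderiv_right (m := 1) (by norm_num; exact WithTop.coe_le_coe.2 le_top)).differentiable
      (by norm_num) z
  rw [fderiv_clm_apply h1 (differentiableAt_const _)]
  simp

lemma defining {n : ℕ} {ρ : CC n → ℝ} (hρ : ContDiff ℝ ((⊤ : ℕ∞) : WithTop ℕ∞) ρ) {z : CC n}
    (h1 : fderiv ℝ ρ z ≠ 0) (h2 : ∀ ξ : CC n, ξ ≠ 0 → 0 < fderiv ℝ (fderiv ℝ ρ) z ξ ξ
      + fderiv ℝ (fderiv ℝ ρ) z (Complex.I • ξ) (Complex.I • ξ)) :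
    (∃ ξ, fderiv ℝ ρ z ξ ≠ 0) ∧ ∀ ξ : CC n, ξ ≠ 0 → 0 < levi ρ z ξ := by
  refine ⟨?_, fun ξ hξ => ?_⟩
  · by_contra hcon
    push Not at hcon
    exact h1 (ContinuousLinearMap.ext fun ξ => by simpa using hcon ξ)
  · unfold levi
    rw [second_eq hρ, second_eq hρ]
    exact h2 ξ hξ

end Pool.Agent.H97.GreenOwn
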