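import Pool.Agent.H97.GreenOwn.Defs
import Pool.Agent.H97.Green.Final

set_option autoImplicit false

open Filter Topology MeasureTheory

namespace Pool.Agent.H97.GreenOwn

open Pool.Agent.H97.Green

lemma toENNReal_sub_add (M : ℝ) (hM : 0 ≤ M) {x : EReal} (hx : x ≤ 0) :
    ((M : EReal) - x).toENNReal = ENNReal.ofReal M + (-x).toENNReal := by
  induction x using EReal.rec with
  | bot => simp
  | coe x =>
    have hx' : x ≤ 0 := by exact_mod_cast hx
    rw [← EReal.coe_sub, ← EReal.coe_neg, EReal.real_coe_toENNReal, EReal.real_coe_toENNReal,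
      ← ENNReal.ofReal_add hM (by linarith)]
    congr 1
  | top => exact absurd hx (by simp)

lemma toENNReal_neg_add (M : ℝ) (hM : M ≤ 0) {x : EReal} (hx : x ≤ (M : EReal)) :
    (-x).toENNReal = ENNReal.ofReal (-M) + ((M : EReal) - x).toENNReal := by
  induction x using EReal.rec with
  | bot => simp
  | coe x =>
    have hx' : x ≤ M := by exact_mod_cast hx
    rw [← EReal.coe_sub, ← EReal.coe_neg, EReal.real_coe_toENNReal, EReal.real_coe_toENNReal,
      ← ENNReal.ofReal_add (by linarith) (by linarith)]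
    congr 1
    ring
  | top => exact absurd hx (by simp)

/-- A competitor in the sense of the frozen statement is plurisubharmonic. -/
lemma psh_of_comp {Ω : Set EE} {u : EE → EReal} (h : Comp Ω u) : PSH Ω u := by
  obtain ⟨husc, hneg, -, hmean⟩ := h
  refine ⟨husc, fun y hy => ((hneg y hy).trans_le le_top).ne, ?_⟩
  intro a b r hr hdisc' M hM'
  have hdisc : ∀ ζ : ℂ, ‖ζ‖ ≤ r → a + ζ • b ∈ Ω := fun ζ hζ => hdisc' ⟨ζ, hζ, rfl⟩
  have hM : ∀ ζ : ℂ, ‖ζ‖ ≤ r → u (a + ζ • b) ≤ (M : EReal) := fun ζ hζ => hM' _ ⟨ζ, hζ, rfl⟩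
  have ha : a ∈ Ω := by
    have := hdisc 0 (by simpa using hr.le)
    simpa using this
  simp only [circ]
  have h0 := hmean a ha b r hr hdisc
  have hcm : ∀ θ : ℝ, ‖(r : ℂ) * Complex.exp ((θ : ℂ) * Complex.I)‖ ≤ r := by
    intro θ
    rw [norm_mul, Complex.norm_exp_ofReal_mul_I, mul_one, Complex.norm_real,
      Real.norm_of_nonneg hr.le]
  have hvol : ∀ c : ENNReal, ∫⁻ _ in Set.Icc (0 : ℝ) (2 * Real.pi), c =
      ENNReal.ofReal (2 * Real.pi) * c := by
    intro c
    rw [lintegral_const, Measure.restrict_apply MeasurableSet.univ, Set.univ_inter,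
      Real.volume_Icc, sub_zero, mul_comm]
  rcases le_total 0 M with hM0 | hM0
  · have e1 : ∀ θ : ℝ, ((M : EReal) -
        u (a + ((r : ℂ) * Complex.exp ((θ : ℂ) * Complex.I)) • b)).toENNReal =
        ENNReal.ofReal M + (-(u (a + ((r : ℂ) * Complex.exp ((θ : ℂ) * Complex.I)) • b))).toENNReal :=
      fun θ => toENNReal_sub_add M hM0 (hneg _ (hdisc _ (hcm θ))).le
    simp only [e1]
    rw [lintegral_add_left measurable_const, hvol, toENNReal_sub_add M hM0 (hneg a ha).le, mul_add]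
    gcongr
  · have e1 : ∀ θ : ℝ, (-(u (a + ((r : ℂ) * Complex.exp ((θ : ℂ) * Complex.I)) • b))).toENNReal =
        ENNReal.ofReal (-M) + ((M : EReal) -
          u (a + ((r : ℂ) * Complex.exp ((θ : ℂ) * Complex.I)) • b)).toENNReal :=
      fun θ => toENNReal_neg_add M hM0 (hM _ (hcm θ))
    simp only [e1] at h0
    have ha' : u a ≤ (M : EReal) := by
      have := hM 0 (by simpa using hr.le)
      simpa using this
    rw [lintegral_add_left measurable_const, hvol, toENNReal_neg_add M hM0 ha', mul_add] at h0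
    exact (ENNReal.add_le_add_iff_left
      (ENNReal.mul_ne_top ENNReal.ofReal_ne_top ENNReal.ofReal_ne_top)).1 h0

/-- The class of the competitors in the definition of the Green function. -/
def Lit (Ω : Set EE) (u : EE → EReal) : Prop :=
  PSH Ω u ∧ (∀ y ∈ Ω, u y ≤ 0) ∧ ∃ C : ℝ, ∀ y ∈ Ω, u y ≤ ENNReal.log ‖y - 0‖ₑ + (C : EReal)

lemma log_enorm {y : EE} (hy : y ≠ 0) : ENNReal.log ‖y‖ₑ = ((Real.log ‖y‖ : ℝ) : EReal) := by
  have hn : 0 < ‖y‖ := norm_pos_iff.2 hy
  rw [← ofReal_norm, ENNReal.log_ofReal_of_pos hn]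

/-- The explicit competitors are literal competitors. -/
lemma lit_ux {c ε : ℝ} (hε : 0 < ε)
    (hb : ∀ z : ℂ, 0 < Complex.normSq z → Complex.normSq z < 2 → bf c ε z ≤ E0 z)
    {x : ℝ} (hx : 0 ≤ x) : Lit (Om c ε) (ux x) := by
  have hc := comp_ux hε hb hx
  refine ⟨psh_of_comp hc, fun y hy => (hc.2.1 y hy).le, 0, fun y hy => ?_⟩
  rw [sub_zero, EReal.coe_zero, add_zero]
  by_cases h : y 0 = 0 ∨ y 1 = 0
  · rw [ux_of_eq hx h]; exact bot_le
  · push Not at h
    have hy0 : y ≠ 0 := by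
      rintro rfl
      exact h.1 rfl
    rw [ux_of_ne h.1 h.2, log_enorm hy0, EReal.coe_le_coe_iff]
    unfold Fx
    have h0 : 0 < ‖y 0‖ := norm_pos_iff.2 h.1
    have h1 : 0 < ‖y 1‖ := norm_pos_iff.2 h.2
    have l0 : Real.log ‖y 0‖ ≤ Real.log ‖y‖ := Real.log_le_log h0 (norm_coord_le y 0)
    have l1 : Real.log ‖y 1‖ ≤ Real.log ‖y‖ := Real.log_le_log h1 (norm_coord_le y 1)
    rw [div_le_iff₀ (by linarith)]
    nlinarith [mul_le_mul_of_nonneg_left l0 (show 0 ≤ 1 + x by linarith), sq_nonneg x]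

lemma neg_add_neg (x : EReal) (δ : ℝ) : -(x + ((-δ : ℝ) : EReal)) = (δ : EReal) - x := by
  induction x using EReal.rec with
  | bot => simp
  | coe x =>
    rw [← EReal.coe_add, ← EReal.coe_neg, ← EReal.coe_sub]
    congr 1
    ring
  | top => simp

/-- A literal competitor minus a positive constant is a competitor in the frozen sense. -/
lemma comp_of_lit {Ω : Set EE} {u : EE → EReal} (h : Lit Ω u) {δ : ℝ} (hδ : 0 < δ) :
    Comp Ω (fun y => u y + ((-δ : ℝ) : EReal)) := by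
  obtain ⟨⟨husc, -, hmean⟩, hle, C, hC⟩ := h
  refine ⟨?_, ?_, ⟨C, 1, one_pos, ?_⟩, ?_⟩
  · intro y hy t ht
    have h1 : u y < t + (δ : EReal) ∨ False := by
      left
      have : u y = (u y + ((-δ : ℝ) : EReal)) + (δ : EReal) := by
        rw [add_assoc, ← EReal.coe_add]; simp
      rw [this]
      exact EReal.add_lt_add_of_lt_of_le ht le_rfl (by simp) (by simp)
    rcases h1 with h1 | h1
    · filter_upwards [husc y hy _ h1] with y' hy'
      have e : t = (t + (δ : EReal)) + ((-δ : ℝ) : EReal) := by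
        rw [add_assoc, ← EReal.coe_add]; simp
      rw [e]
      exact EReal.add_lt_add_of_lt_of_le hy' le_rfl (by simp) (by simp)
    · exact h1.elim
  · intro y hy
    have h1 := hle y hy
    calc u y + ((-δ : ℝ) : EReal) ≤ 0 + ((-δ : ℝ) : EReal) := by gcongr
      _ = ((-δ : ℝ) : EReal) := zero_add _
      _ < 0 := by exact_mod_cast neg_lt_zero.2 hδ
  · intro y hy hy0 _
    have h1 := hC y hy
    rw [sub_zero, log_enorm hy0, ← EReal.coe_add] at h1
    rw [sub_zero]
    calc u y + ((-δ : ℝ) : EReal) ≤ ((Real.log ‖y‖ + C : ℝ) : EReal) + ((-δ : ℝ) : EReal) := by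
          gcongr
      _ = ((Real.log ‖y‖ + C + -δ : ℝ) : EReal) := by rw [← EReal.coe_add]
      _ ≤ ((Real.log ‖y‖ + C : ℝ) : EReal) := by
          rw [EReal.coe_le_coe_iff]; linarith
  · intro a ha b r hr hdisc
    have hd : disc a b r ⊆ Ω := by
      rintro y ⟨ζ, hζ, rfl⟩
      exact hdisc ζ hζ
    have := hmean a b r hr hd δ (fun y hy => (hle _ (hd hy)).trans (by exact_mod_cast hδ.le))
    simp only [neg_add_neg]
    exact this

/-- An upper bound for the competitors in the frozen sense is an upper bound for all literal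
competitors. -/
lemma le_of_comp_le {Ω : Set EE} {y : EE} {B : ℝ}
    (h : ∀ u : EE → EReal, Comp Ω u → u y ≤ (B : EReal)) {u : EE → EReal} (hu : Lit Ω u) :
    u y ≤ (B : EReal) := by
  have key : ∀ δ : ℝ, 0 < δ → u y ≤ ((B + δ : ℝ) : EReal) := by
    intro δ hδ
    have h1 := h _ (comp_of_lit hu hδ)
    have h2 : u y = (u y + ((-δ : ℝ) : EReal)) + (δ : EReal) := by
      rw [add_assoc, ← EReal.coe_add]; simp
    rw [h2, EReal.coe_add]
    gcongr
  induction hx : u y using EReal.rec with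
  | bot => exact bot_le
  | coe x =>
    rw [EReal.coe_le_coe_iff]
    refine le_of_forall_pos_le_add fun δ hδ => ?_
    have := key δ hδ
    rw [hx, EReal.coe_le_coe_iff] at this
    exact this
  | top =>
    have := key 1 one_pos
    rw [hx] at this
    exact absurd (top_le_iff.1 this) (EReal.coe_ne_top _)

lemma green_eq (Ω : Set EE) (z : EE) :
    green Ω 0 z = sSup {t : EReal | ∃ u : EE → EReal, t = u z ∧ Lit Ω u} := rfl

/-- The lower and upper estimates on the real function `G = g.toReal` along the curve. -/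
lemma facts {c ε : ℝ} (hc : 0 ≤ c) (hε : 0 < ε) {a : ℂ} (haa : ‖a - 1 / 2‖ ≤ 1 / 4)
    (hb : ∀ z : ℂ, 0 < Complex.normSq z → Complex.normSq z < 2 → bf c ε z ≤ E0 z)
    (hab : bf c ε a = E0 a) : ∃ z : ℂ, z ≠ 0 ∧ ‖z‖ < 1 ∧ ∃ A : ℝ,
      (∀ᶠ m : ℕ in atTop, (Real.log 2 / m) ^ 2 / 8 ≤
        (green (Om c ε) 0 (pt z (-(Real.log 2 / m)))).toReal - Real.log ‖z‖ -
          (-(Real.log 2 / m)) / 2) ∧
      (∀ᶠ m : ℕ in atTop, 0 ≤ (green (Om c ε) 0 (pt z (Real.log 2 / m))).toReal -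
        Real.log ‖z‖ - (Real.log 2 / m) / 2) ∧
      (∀ᶠ m : ℕ in atTop, (green (Om c ε) 0 (pt z (Real.log 2 / m))).toReal -
        Real.log ‖z‖ - (Real.log 2 / m) / 2 ≤ A / (m : ℝ) ^ 2 * (Real.log 2 / m)) := by
  obtain ⟨z, hz, hz1, A, hA, hup⟩ := upper_points hc hε haa hab
  refine ⟨z, hz, hz1, A, ?_⟩
  have hl2 : 0 < Real.log 2 := Real.log_pos (by norm_num)
  set s : ℕ → ℝ := fun m => Real.log 2 / m with hs
  have hcast : Tendsto (fun m : ℕ => (m : ℝ)) atTop atTop := tendsto_natCast_atTop_atTop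
  have hs0 : Tendsto s atTop (𝓝 0) := tendsto_const_nhds.div_atTop hcast
  have hs0' : Tendsto (fun m => -s m) atTop (𝓝 0) := by simpa using hs0.neg
  have hspos : ∀ᶠ m : ℕ in atTop, 0 < s m := by
    filter_upwards [eventually_gt_atTop 0] with m hm
    have : (0 : ℝ) < m := by exact_mod_cast hm
    simp only [hs]; positivity
  have hmem := pt_mem hc hε hz hz1
  have hM1 := hs0.eventually hmem
  have hM2 := hs0'.eventually hmem
  have hle0 : ∀ y ∈ Om c ε, green (Om c ε) 0 y ≤ 0 := by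
    intro y hy
    refine sSup_le ?_
    rintro t ⟨u, rfl, -, hu, -⟩
    exact hu y hy
  have hge : ∀ (x : ℝ), 0 ≤ x → ∀ t : ℝ, pt z t ∈ Om c ε \ {0} →
      ((2 + x) * Real.log ‖z‖ + t - x ^ 2 / 8) / (2 + x) ≤
        (green (Om c ε) 0 (pt z t)).toReal := by
    intro x hx t ht
    have h2 : ux x (pt z t) ≤ green (Om c ε) 0 (pt z t) := by
      rw [green_eq]
      exact le_sSup ⟨ux x, rfl, lit_ux hε hb hx⟩
    rw [ux_of_ne (by rw [pt_zero]; exact hz) (pt_ne hz t), Fx_pt hz] at h2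
    have h3 := hle0 _ ht.1
    have h4 := EReal.toReal_le_toReal h2 (by simp) (h3.trans_lt (by simp)).ne
    simpa using h4
  refine ⟨?_, ?_, ?_⟩
  · filter_upwards [hM2, hspos, hs0.eventually (gt_mem_nhds (by norm_num : (0:ℝ) < 1))]
      with m hm hm1 hm2
    have h1 := hge (s m) hm1.le (-s m) hm
    have h2 : Real.log ‖z‖ - s m / 2 + (s m) ^ 2 / 8 ≤
        ((2 + s m) * Real.log ‖z‖ + -s m - s m ^ 2 / 8) / (2 + s m) := by
      rw [le_div_iff₀ (by linarith)]
      nlinarith [pow_pos hm1 2, mul_pos (pow_pos hm1 2) (sub_pos.2 hm2)]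
    change s m ^ 2 / 8 ≤ (green (Om c ε) 0 (pt z (-s m))).toReal - Real.log ‖z‖ - (-s m) / 2
    linarith
  · filter_upwards [hM1] with m hm
    have h1 := hge 0 le_rfl (s m) hm
    change 0 ≤ (green (Om c ε) 0 (pt z (s m))).toReal - Real.log ‖z‖ - (s m) / 2
    have h2 : ((2 + 0) * Real.log ‖z‖ + s m - 0 ^ 2 / 8) / (2 + 0) = Real.log ‖z‖ + s m / 2 := by
      ring
    linarith
  · filter_upwards [hM1, hup] with m hm hmu
    have h1 : green (Om c ε) 0 (pt z (s m)) ≤
        ((Real.log ‖z‖ + (1 / 2 + A / (m : ℝ) ^ 2) * (Real.log 2 / m) : ℝ) : EReal) := by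
      rw [green_eq]
      refine sSup_le ?_
      rintro t ⟨u, rfl, hu⟩
      exact le_of_comp_le hmu hu
    have h0 : ux 0 (pt z (s m)) ≤ green (Om c ε) 0 (pt z (s m)) := by
      rw [green_eq]
      exact le_sSup ⟨ux 0, rfl, lit_ux hε hb le_rfl⟩
    rw [ux_of_ne (by rw [pt_zero]; exact hz) (pt_ne hz _)] at h0
    have hbot : green (Om c ε) 0 (pt z (s m)) ≠ ⊥ := by
      intro h
      rw [h] at h0
      exact absurd h0 (by simp)
    have h3 := EReal.toReal_le_toReal h1 hbot (EReal.coe_ne_top _)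
    rw [EReal.toReal_coe] at h3
    change (green (Om c ε) 0 (pt z (s m))).toReal - Real.log ‖z‖ - (s m) / 2 ≤ _
    have h2 : (1 / 2 + A / (m : ℝ) ^ 2) * (Real.log 2 / m) =
        s m / 2 + A / (m : ℝ) ^ 2 * (Real.log 2 / m) := by
      simp only [hs]; ring
    linarith

end Pool.Agent.H97.GreenOwn
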